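import Pool.Agent.Lib.Pda3a14.EClass

/-!
# Hierarchies with tamely exponentially distorted edge groups
-/

namespace Pool.Agent.Results.MP_da3a14_al.ExponentialEdges

open Pda3a14 MulAction

/-- Let `G₀` be a finite index subgroup of `G`, generated by the finite set `S`, which belongs to
`ExpClass G₀ (wordLength S)`. Then every finitely presented subgroup of `G` has at most exponential
Dehn function. -/
theorem result (G : Type) [Group G] (G₀ : Subgroup G) (h0 : G₀.FiniteIndex) (S : Finset G₀)
    (hS : Subgroup.closure (S : Set G₀) = ⊤) (h : ExpClass G₀ (wordLength S) ⊤)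
    (H : Subgroup G) (P : FinPres H) : Preceq (fun x => (P.dehn x : ℝ)) Real.exp := by
  have hν : IsLen (wordLength S) := ⟨wordLength_one, wordLength_inv hS, wordLength_mul hS⟩
  apply exp_virtual G₀ h0 ?_ H P
  intro K hK P'
  let P1 : FinPres (K.subgroupOf G₀) := P'.ofEquiv (Subgroup.subgroupOfEquivOfLe hK).symm
  obtain ⟨d, C, hdC⟩ := h.expFill hν _ le_top P1.toSPres
  obtain ⟨c, hc⟩ := exists_inBall_finite hS (Set.range fun i => P1.toSPres.π (FreeGroup.of i))
    (Set.finite_range _)
  have hc' : ∀ i, InBall S c (P1.toSPres.π (FreeGroup.of i)) := fun i => hc _ ⟨i, rfl⟩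
  have hd : ∀ x, P'.dehn x ≤ ((d + 2) ^ d * (C + 1) ^ (c + 1) * 2 ^ d) ^ (x + 1) := by
    intro x
    have hx : P'.dehn x = P1.dehn x := by
      rw [FinPres.ofEquiv_dehn]
    rw [hx]
    apply P1.dehn_le
    intro w hw h1
    have h2 : AreaLE (P1.R : Set (FreeGroup (Fin P1.n))) ((x + 1) ^ d * C ^ (x * c + 1))
        (FreeGroup.mk w.toWord) := by
      apply hdC x (x * c) w.toWord hw
      · intro k
        apply wordLength_le
        have h3 := inBall_word P1.toSPres.π hc' (FreeGroup.mk (w.toWord.take k))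
        apply h3.mono
        apply Nat.mul_le_mul_right
        refine FreeGroup.norm_mk_le.trans ?_
        rw [List.length_take]
        exact (min_le_right _ _).trans hw
      · change ((P1.π (FreeGroup.mk w.toWord) : K.subgroupOf G₀) : G₀) = 1
        rw [FreeGroup.mk_toWord, h1]; rfl
    rw [FreeGroup.mk_toWord] at h2
    apply h2.mono
    have h3 : (x + 1) ^ d ≤ (2 ^ d) ^ (x + 1) := by
      rw [← pow_mul, mul_comm d, pow_mul]
      exact Nat.pow_le_pow_left (Nat.lt_two_pow_self (n := x + 1)).le _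
    have h4 : C ^ (x * c + 1) ≤ ((C + 1) ^ (c + 1)) ^ (x + 1) := by
      rw [← pow_mul]
      refine (Nat.pow_le_pow_left (by omega : C ≤ C + 1) _).trans
        (Nat.pow_le_pow_right (by omega) ?_)
      have : (c + 1) * (x + 1) = x * c + 1 + (c + x) := by ring
      omega
    have h5 : 0 < ((d + 2) ^ d) ^ (x + 1) := by positivity
    calc (x + 1) ^ d * C ^ (x * c + 1) ≤ (2 ^ d) ^ (x + 1) * ((C + 1) ^ (c + 1)) ^ (x + 1) :=
          Nat.mul_le_mul h3 h4
      _ ≤ ((d + 2) ^ d) ^ (x + 1) * ((2 ^ d) ^ (x + 1) * ((C + 1) ^ (c + 1)) ^ (x + 1)) :=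
          Nat.le_mul_of_pos_left _ h5
      _ = _ := by rw [mul_pow, mul_pow]; ring
  exact exp_of_nat_bound hd

end Pool.Agent.Results.MP_da3a14_al.ExponentialEdges
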