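import Pool.Agent.Lib.Pda3a14.Final

/-!
# Dehn functions of normal subgroups of CAT(0) groups with combable quotient
-/

namespace Pool.Agent.Results.MP_da3a14_al.NormalSubgroups

open Pda3a14

/-- Let `G` be a CAT(0) group (or any combable group) and `H` a finitely presented normal
subgroup whose quotient `G ⧸ H` is abelian, CAT(0), hyperbolic or combable. Then the Dehn
function of `H` is at most exponential. -/
theorem result (G : Type) [Group G] (hG : CATZeroGroup G ∨ Combable G)
    (H : Subgroup G) [H.Normal]
    (hQ : (∀ a b : G ⧸ H, a * b = b * a) ∨ CATZeroGroup (G ⧸ H) ∨ HyperbolicGroup (G ⧸ H) ∨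
      Combable (G ⧸ H))
    (P : FinPres H) : Preceq (fun x => (P.dehn x : ℝ)) Real.exp := by
  have hG' : Combable G := by
    rcases hG with h | h
    · exact h.combable
    · exact h
  exact exp_bound hG' (combable_quotient hG' H hQ) P

end Pool.Agent.Results.MP_da3a14_al.NormalSubgroups
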