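import Pool.Agent.Lib.Pda3a14.RFinal

/-!
# Dehn functions of normal subgroups of groups which are hyperbolic relative to abelian subgroups
-/

namespace Pool.Agent.Results.MP_da3a14_al.RelHyperbolicNormal

open Pda3a14

/-- Let `H` be a finitely presented normal subgroup of `G` such that `G ⧸ H` is abelian, CAT(0),
hyperbolic or combable. Suppose that `G` is hyperbolic, or that `G` is hyperbolic relative to a
finite family of abelian subgroups `A i` and either `G ⧸ H` is abelian or the images of the `A i`
in `G ⧸ H` are undistorted. Then the Dehn function of `H` is bounded by a polynomial. -/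
theorem result (G : Type) [Group G] (H : Subgroup G) [H.Normal]
    (hG : HyperbolicGroup G ∨ ∃ (ι : Type) (A : ι → Subgroup G), RelHyperbolic G A ∧
      (∀ i, ∀ x ∈ A i, ∀ y ∈ A i, x * y = y * x) ∧
      ((∀ a b : G ⧸ H, a * b = b * a) ∨ ∀ i, Undistorted ((A i).map (QuotientGroup.mk' H))))
    (hQ : (∀ a b : G ⧸ H, a * b = b * a) ∨ CATZeroGroup (G ⧸ H) ∨ HyperbolicGroup (G ⧸ H) ∨
      Combable (G ⧸ H))
    (P : FinPres H) : ∃ d : ℕ, Preceq (fun x => (P.dehn x : ℝ)) (fun x => x ^ d) := by
  rcases hG with hG | ⟨ι, A, hG, hab, hA⟩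
  · exact poly_bound hG (combable_quotient hG.combable H hQ) P
  · exact poly_bound_rel hG hab hA (combable_quotient_fg hG.fg H hQ) P

end Pool.Agent.Results.MP_da3a14_al.RelHyperbolicNormal
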