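import Pool.Agent.Lib.Pda3a14.SClass

/-!
# Dehn functions of all finitely presented subgroups of groups acting on trees
-/

namespace Pool.Agent.Results.MP_da3a14_al.TreeSplittings

open Pda3a14 MulAction

/-- (1) Let the finite index subgroup `G₀` of `G` act on a tree `T` with tame edge groups. If every
finitely presented subgroup of a vertex group has at most exponential Dehn function, then so has
every finitely presented subgroup of `G`. (2) The same with polynomially bounded Dehn functions.
(3) All finitely presented subgroups of the groups of the class `TreeClass` have polynomially bounded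
Dehn functions. -/
theorem result :
    (∀ (G V : Type) [Group G] (G₀ : Subgroup G) [MulAction G₀ V] (T : SimpleGraph V),
      G₀.FiniteIndex → T.IsTree → (∀ (g : G₀) (x y : V), T.Adj x y → T.Adj (g • x) (g • y)) →
      TameEdges G₀ T →
      (∀ x : V, ∀ K ≤ stabilizer G₀ x, ∀ P : FinPres K,
        Preceq (fun x => (P.dehn x : ℝ)) Real.exp) →
      ∀ (H : Subgroup G) (P : FinPres H), Preceq (fun x => (P.dehn x : ℝ)) Real.exp) ∧
    (∀ (G V : Type) [Group G] (G₀ : Subgroup G) [MulAction G₀ V] (T : SimpleGraph V),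
      G₀.FiniteIndex → T.IsTree → (∀ (g : G₀) (x y : V), T.Adj x y → T.Adj (g • x) (g • y)) →
      TameEdges G₀ T →
      (∀ x : V, ∀ K ≤ stabilizer G₀ x, ∀ P : FinPres K,
        ∃ d : ℕ, Preceq (fun x => (P.dehn x : ℝ)) (fun x => x ^ d)) →
      ∀ (H : Subgroup G) (P : FinPres H),
        ∃ d : ℕ, Preceq (fun x => (P.dehn x : ℝ)) (fun x => x ^ d)) ∧
    (∀ (G : Type) [i : Group G], TreeClass G i → ∀ (H : Subgroup G) (P : FinPres H),
      ∃ d : ℕ, Preceq (fun x => (P.dehn x : ℝ)) (fun x => x ^ d)) := by
  refine ⟨?_, ?_, ?_⟩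
  · intro G V _ G₀ _ T h0 hT hadj hE hV H P
    apply exp_virtual G₀ h0 ?_ H P
    intro K hK P'
    have h := exp_strong T hT hadj hE.edges hV (K.subgroupOf G₀)
      (P'.ofEquiv (Subgroup.subgroupOfEquivOfLe hK).symm)
    rwa [FinPres.ofEquiv_dehn] at h
  · intro G V _ G₀ _ T h0 hT hadj hE hV H P
    apply poly_virtual G₀ h0 ?_ H P
    intro K hK P'
    have h := poly_strong T hT hadj hE.edges hV (K.subgroupOf G₀)
      (P'.ofEquiv (Subgroup.subgroupOfEquivOfLe hK).symm)
    rwa [FinPres.ofEquiv_dehn] at h
  · intro G i h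
    exact h.poly

end Pool.Agent.Results.MP_da3a14_al.TreeSplittings
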